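import Mathlib
import Pool.Agent.Helper69.FdDefs
import Pool.Agent.Y896.FD.S3

set_option autoImplicit false

/-!
# MP_c829d7_an, Q1: all values of the flat dimension, at separable spaces, and above every space
-/

namespace Pool.Agent.Results.MP_c829d7_an.SeparableComplemented

open Pool.Agent.Helper69.Fd

/-- Over the real and over the complex numbers: for every `n` in `{0, 1, 2, …, ∞}` there is a
**separable** Banach space `Z` of infinite projective dimension and flat dimension `n` such that
moreover, for **every** Banach space `Y` of flat dimension at most `n`, the Banach space `Y × Z` has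
infinite projective dimension and flat dimension `n`; thus every Banach space of flat dimension `≤ n`
is complemented in a Banach space of infinite projective dimension and flat dimension exactly `n`. -/
theorem result (𝕜 : Type) [RCLike 𝕜] (n : ℕ∞) :
    ∃ (Z : Type) (_ : NormedAddCommGroup Z) (_ : NormedSpace 𝕜 Z) (_ : CompleteSpace Z),
      TopologicalSpace.SeparableSpace Z ∧ pd 𝕜 Z = ⊤ ∧ fd 𝕜 Z = n ∧
      ∀ (Y : Type) [NormedAddCommGroup Y] [NormedSpace 𝕜 Y] [CompleteSpace Y], fd 𝕜 Y ≤ n →
        pd 𝕜 (Y × Z) = ⊤ ∧ fd 𝕜 (Y × Z) = n := by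
  obtain ⟨Z, i1, i2, i3, hs, h⟩ := Pool.Agent.Y896.FD.exists_good 𝕜 n
  refine ⟨Z, i1, i2, i3, hs, h.pd, h.fd, fun Y _ _ _ hY => ?_⟩
  exact ⟨(h.prod Y hY).pd, (h.prod Y hY).fd⟩

end Pool.Agent.Results.MP_c829d7_an.SeparableComplemented
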